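import Mathlib
import Pool.Agent.Work.MP_f0bc87_an.Sharp
import Pool.Agent.Work.MP_f0bc87_an.ScalarCert

set_option autoImplicit false

open Polynomial

namespace Pool.Agent.Results.MP_f0bc87_an.SharpMean

/-- The mean of order `-2` of the distances from the zero `a` to the critical points is at most
`1`, with equality only for `z ^ n - 1`. -/
theorem result :
    ∀ (m : ℕ), 1 ≤ m → ∀ (a : ℝ), 0 ≤ a → a ≤ 1 → ∀ z : Fin m → ℂ, (∀ j, ‖z j‖ ≤ 1) →
      ((a : ℂ) ∈ (derivative ((X - C (a : ℂ)) * ∏ j, (X - C (z j)))).roots) ∨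
      (m : ℝ) < (((derivative ((X - C (a : ℂ)) * ∏ j, (X - C (z j)))).roots).map
          (fun w : ℂ => (‖w - (a : ℂ)‖ ^ 2)⁻¹)).sum ∨
      (a = 1 ∧ (X - C (a : ℂ)) * ∏ j, (X - C (z j)) = X ^ (m + 1) - 1 ∧
        (((derivative ((X - C (a : ℂ)) * ∏ j, (X - C (z j)))).roots).map
          (fun w : ℂ => (‖w - (a : ℂ)‖ ^ 2)⁻¹)).sum = m) :=
  Pool.Agent.Work.F0bc87.sharp_of_cert Pool.Agent.Work.F0bc87.scalar_cert

end Pool.Agent.Results.MP_f0bc87_an.SharpMean
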